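import Pool.Agent.H92.RamseyI

/-!
Two books: interface for the three set potential (MP_28724c_co).
Red = edges of `G`, blue = edges of the complement. `nu` is a weight on `Y` (red book),
`ze` a weight on `Z` (blue book), and every `x` in `X` counts with
`(red degree of x into nu - q)_+ ^ w * (blue degree of x into ze - p)_+ ^ w'`.
-/

open Finset

namespace Pool.Agent.H34.RM

open Pool.Agent.H92

variable {V : Type} [DecidableEq V] (G : SimpleGraph V) [DecidableRel G.Adj]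

/-- red indicator -/
def rI (x y : V) : ℝ := if G.Adj x y then 1 else 0

/-- blue indicator -/
def bI (x y : V) : ℝ := if y ≠ x ∧ ¬ G.Adj x y then 1 else 0

/-- probability weight on `Y` -/
structure IsProb (Y : Finset V) (f : V → ℝ) : Prop where
  nonneg : ∀ y, 0 ≤ f y
  supp : ∀ y, y ∉ Y → f y = 0
  sum : ∑ y ∈ Y, f y = 1

/-- weighted red degree of `x` -/
noncomputable def dR (Y : Finset V) (nu : V → ℝ) (x : V) : ℝ := ∑ y ∈ Y, nu y * rI G x y

/-- weighted blue degree of `x` -/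
noncomputable def dB (Z : Finset V) (ze : V → ℝ) (x : V) : ℝ := ∑ z ∈ Z, ze z * bI G x z

/-- logarithm of the Renyi size of a weight -/
noncomputable def lsz (d : ℝ) (Y : Finset V) (nu : V → ℝ) : ℝ :=
  -(1 / d) * Real.log (∑ y ∈ Y, nu y ^ (1 + d))

/-- the weight of `x` in the sum -/
noncomputable def wt (q p : ℝ) (w w' : ℕ) (Y Z : Finset V) (nu ze : V → ℝ) (x : V) : ℝ :=
  (max (dR G Y nu x - q) 0) ^ w * (max (dB G Z ze x - p) 0) ^ w'

/-- the sum over `X` -/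
noncomputable def SS (q p : ℝ) (w w' : ℕ) (X Y Z : Finset V) (nu ze : V → ℝ) : ℝ :=
  ∑ x ∈ X, wt G q p w w' Y Z nu ze x

/-- the three set potential -/
noncomputable def PP (a b c d q p : ℝ) (w w' : ℕ) (X Y Z : Finset V) (nu ze : V → ℝ) : ℝ :=
  Real.exp (b * lsz d Y nu + c * lsz d Z ze) * (SS G q p w w' X Y Z nu ze) ^ a

/-- `E_f [tilt^(1+d)]` for the tilt `(1-t) + t 1_A / p` of a set of measure `p` -/
noncomputable def phi (d t p : ℝ) : ℝ :=
  (1 - p) * (1 - t) ^ (1 + d) + p * (1 - t + t / p) ^ (1 + d)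

/-- the test function of a certificate -/
noncomputable def tst (w0 w1 w2 om mu mu' y z : ℝ) : ℝ :=
  w0 + w1 * y + w2 * z + om * (y * z * Real.exp (mu * y + mu' * z))

/-- Certificate for the three set step (`xhat = exp (-L)`, `yhat = exp (-M)`). -/
def Cert3 (a b c d q p L M : ℝ) : Prop :=
  ∃ s t w0 w1 w2 om mu mu' la la' : ℝ,
    0 ≤ s ∧ s < 1 ∧ 0 ≤ t ∧ t < 1 ∧ 0 ≤ w0 ∧ 0 ≤ w1 ∧ 0 ≤ w2 ∧ 0 ≤ om ∧ 0 ≤ mu ∧ mu < q ∧
    0 ≤ mu' ∧ mu' < p ∧ 0 ≤ la ∧ 0 ≤ la' ∧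
    (∀ y z : ℝ, tst w0 w1 w2 om mu mu' y z ≤ la * Real.exp (y + t * z)) ∧
    (∀ y z : ℝ, tst w0 w1 w2 om mu mu' y z ≤ la' * Real.exp (z + s * y)) ∧
    la * (Real.exp (-L / a) * q ^ (-b / a) * phi d t p ^ (c / (a * d))) +
      la' * (Real.exp (-M / a) * p ^ (-c / a) * phi d s q ^ (b / (a * d))) < w0

/-- ROW G. STATEMENT of the three set theorem. -/
def T3 : Prop :=
  ∀ (a b c d q p L M η : ℝ), 0 < a → 0 < b → 0 < c → 0 < d → d ≤ 1 → 0 < q → q < 1 →
    0 < p → p < 1 → 0 ≤ L → 0 ≤ M → 0 < η → Cert3 a b c d q p L M →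
    ∃ C1 : ℝ, 0 ≤ C1 ∧
      ∀ (V : Type) [DecidableEq V] (G : SimpleGraph V) [DecidableRel G.Adj]
        (X Y Z : Finset V) (N k l : ℕ) (E E' : ℝ),
        X.Nonempty → X.card ≤ N → Y.card ≤ N → Z.card ≤ N →
        NoR G k (X ∪ Y) → NoB G l (X ∪ Z) →
        (∀ j ≤ k, ∀ Y' ⊆ Y, NoR G j Y' → (Y'.card : ℝ) ≤ E * Real.exp (j * (L / b))) →
        (∀ j ≤ l, ∀ Z' ⊆ Z, NoB G j Z' → (Z'.card : ℝ) ≤ E' * Real.exp (j * (M / c))) →
        (∀ x ∈ X, (q + η) * Y.card ≤ ∑ y ∈ Y, rI G x y) →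
        (∀ x ∈ X, (p + η) * Z.card ≤ ∑ z ∈ Z, bI G x z) →
        a * Real.log X.card + b * Real.log Y.card + c * Real.log Z.card
          ≤ C1 * (1 + Real.sqrt (Real.log N)) + b * Real.log E + c * Real.log E' + k * L + l * M

/-- ROW F. STATEMENT of the local theorem: a maximiser with nearly constant excesses, without
atoms, all of whose children are small, does not exist. `em`, `em'` are reference values of the
excesses. -/
def Local : Prop :=
  ∀ (a b c d q p L M : ℝ), 0 < a → 0 < b → 0 < c → 0 < d → d ≤ 1 → 0 < q → q < 1 →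
    0 < p → p < 1 → Cert3 a b c d q p L M →
    ∃ (e0 : ℝ) (D w0 : ℕ), 0 < e0 ∧ 1 ≤ w0 ∧
      ∀ (V : Type) [DecidableEq V] (G : SimpleGraph V) [DecidableRel G.Adj]
        (X Y Z : Finset V) (nu ze : V → ℝ) (w w' : ℕ) (em em' : ℝ),
        w0 ≤ w → w0 ≤ w' → IsProb Y nu → IsProb Z ze →
        0 < em → em ≤ 1 → 0 < em' → em' ≤ 1 →
        Real.log (1 / em) ≤ e0 * w → Real.log (1 / em') ≤ e0 * w' →
        0 < SS G q p w w' X Y Z nu ze →
        -- maximality
        (∀ nu' ze' : V → ℝ, IsProb Y nu' → IsProb Z ze' →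
          PP G a b c d q p w w' X Y Z nu' ze' ≤ PP G a b c d q p w w' X Y Z nu ze) →
        -- nearly constant excesses
        (∑ x ∈ X, wt G q p w w' Y Z nu ze x * ((dR G Y nu x - q) / em) ^ 2
          ≤ (1 + e0) * SS G q p w w' X Y Z nu ze) →
        (∑ x ∈ X, wt G q p w w' Y Z nu ze x * (em / (dR G Y nu x - q))
          ≤ (1 + e0) * SS G q p w w' X Y Z nu ze) →
        (∑ x ∈ X, wt G q p w w' Y Z nu ze x * ((dB G Z ze x - p) / em') ^ 2
          ≤ (1 + e0) * SS G q p w w' X Y Z nu ze) →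
        (∑ x ∈ X, wt G q p w w' Y Z nu ze x * (em' / (dB G Z ze x - p))
          ≤ (1 + e0) * SS G q p w w' X Y Z nu ze) →
        -- no atoms
        (∀ x ∈ X, wt G q p w w' Y Z nu ze x * (((w : ℝ) + w') / (em * em')) ^ D
          ≤ e0 * SS G q p w w' X Y Z nu ze) →
        -- children
        (∀ x ∈ X, ∀ nu' ze' : V → ℝ, IsProb (rN G x Y) nu' → IsProb Z ze' →
          PP G a b c d q p w w' (rN G x X) (rN G x Y) Z nu' ze'
            ≤ Real.exp (-L) * PP G a b c d q p w w' X Y Z nu ze) →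
        (∀ x ∈ X, ∀ nu' ze' : V → ℝ, IsProb Y nu' → IsProb (bN G x Z) ze' →
          PP G a b c d q p w w' (bN G x X) Y (bN G x Z) nu' ze'
            ≤ Real.exp (-M) * PP G a b c d q p w w' X Y Z nu ze) →
        False

end Pool.Agent.H34.RM
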