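import Pool.Agent.H34.RM.Rows
import Pool.Agent.H98.RM.Stm

/-!
Polynomial certificates and the rows of the short form of the local theorem.
-/

open Finset

namespace Pool.Agent.H34.RM

open Pool.Agent.H92

/-- polynomial test function -/
noncomputable def pol (n : ℕ) (cf : ℕ → ℕ → ℝ) (y z : ℝ) : ℝ :=
  ∑ i ∈ range n, ∑ j ∈ range n, cf i j * (y ^ i * z ^ j)

/-- Certificate for the three set step with a polynomial test function with nonnegative
coefficients (`exp (-L)`, `exp (-M)` are the costs of a red and of a blue step). The terms with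
`l1` are tails, paid with the moments at the root; the growth condition is for the finite `w` form. -/
def CertP (a b c d q p L M : ℝ) : Prop :=
  ∃ (n : ℕ) (cf : ℕ → ℕ → ℝ) (s t la la' l1 C : ℝ) (m : ℕ),
    1 ≤ n ∧ (∀ i j, 0 ≤ cf i j) ∧ 0 ≤ s ∧ s ≤ 1 ∧ 0 ≤ t ∧ t ≤ 1 ∧ 0 ≤ la ∧ 0 ≤ la' ∧ 0 ≤ l1 ∧
    0 ≤ C ∧
    (∀ y z : ℝ, pol n cf y z ≤ la * Real.exp (y + t * z) + l1 * (Real.exp y + Real.exp z)) ∧
    (∀ y z : ℝ, pol n cf y z ≤ la' * Real.exp (z + s * y) + l1 * (Real.exp y + Real.exp z)) ∧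
    (∀ y z : ℝ, pol n cf y z ≤ C * (1 + (max y 0) ^ m + (max z 0) ^ m)) ∧
    la * (Real.exp (-L / a) * q ^ (-b / a) * phi d t p ^ (c / (a * d))) +
      la' * (Real.exp (-M / a) * p ^ (-c / a) * phi d s q ^ (b / (a * d))) +
      l1 * (q ^ (-b / a) + p ^ (-c / a)) < cf 0 0

/-- Conclusion of the local theorem for fixed parameters. -/
def LocalB (a b c d q p L M : ℝ) : Prop :=
    ∃ (e0 : ℝ) (D w0 : ℕ), 0 < e0 ∧ 1 ≤ w0 ∧
      ∀ (V : Type) [DecidableEq V] (G : SimpleGraph V) [DecidableRel G.Adj]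
        (X Y Z : Finset V) (nu ze : V → ℝ) (w w' : ℕ) (em em' : ℝ),
        w0 ≤ w → w0 ≤ w' → IsProb Y nu → IsProb Z ze →
        0 < em → em ≤ 1 → 0 < em' → em' ≤ 1 →
        Real.log (1 / em) ≤ e0 * w → Real.log (1 / em') ≤ e0 * w' →
        0 < SS G q p w w' X Y Z nu ze →
        (∀ nu' ze' : V → ℝ, IsProb Y nu' → IsProb Z ze' →
          PP G a b c d q p w w' X Y Z nu' ze' ≤ PP G a b c d q p w w' X Y Z nu ze) →
        (∑ x ∈ X, wt G q p w w' Y Z nu ze x * ((dR G Y nu x - q) / em) ^ 2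
          ≤ (1 + e0) * SS G q p w w' X Y Z nu ze) →
        (∑ x ∈ X, wt G q p w w' Y Z nu ze x * (em / (dR G Y nu x - q))
          ≤ (1 + e0) * SS G q p w w' X Y Z nu ze) →
        (∑ x ∈ X, wt G q p w w' Y Z nu ze x * ((dB G Z ze x - p) / em') ^ 2
          ≤ (1 + e0) * SS G q p w w' X Y Z nu ze) →
        (∑ x ∈ X, wt G q p w w' Y Z nu ze x * (em' / (dB G Z ze x - p))
          ≤ (1 + e0) * SS G q p w w' X Y Z nu ze) →
        (∀ x ∈ X, wt G q p w w' Y Z nu ze x * (((w : ℝ) + w') / (em * em')) ^ D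
          ≤ e0 * SS G q p w w' X Y Z nu ze) →
        (∀ x ∈ X, ∀ nu' ze' : V → ℝ, IsProb (rN G x Y) nu' → IsProb Z ze' →
          PP G a b c d q p w w' (rN G x X) (rN G x Y) Z nu' ze'
            ≤ Real.exp (-L) * PP G a b c d q p w w' X Y Z nu ze) →
        (∀ x ∈ X, ∀ nu' ze' : V → ℝ, IsProb Y nu' → IsProb (bN G x Z) ze' →
          PP G a b c d q p w w' (bN G x X) Y (bN G x Z) nu' ze'
            ≤ Real.exp (-M) * PP G a b c d q p w w' X Y Z nu ze) →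
        False

/-- ROW F (helper34). -/
def RowF : Prop :=
  ∀ (a b c d q p L M : ℝ), 0 < a → 0 < b → 0 < c → 0 < d → d ≤ 1 → 0 < q → q < 1 →
    0 < p → p < 1 → CertP a b c d q p L M → LocalB a b c d q p L M

/-- ROW G, in the form without certificate. -/
def RowG : Prop :=
  ∀ (a b c d q p L M : ℝ), 0 < a → 0 < b → 0 < c → 0 < d → d ≤ 1 → 0 < q → q < 1 →
    0 < p → p < 1 → 0 ≤ L → 0 ≤ M → LocalB a b c d q p L M →
      Pool.Agent.H98.RM.Conc3 a b c q p L M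

/-- the certificate predicate for the root layer -/
def Cert3P (a b c q p L M : ℝ) : Prop :=
  0 < a ∧ 0 < b ∧ 0 < c ∧ 0 < q ∧ q < 1 ∧ 0 < p ∧ p < 1 ∧ 0 ≤ L ∧ 0 ≤ M ∧
    ∃ d : ℝ, 0 < d ∧ d ≤ 1 ∧ CertP a b c d q p L M

/-- Assembly of F and G. -/
theorem t3P (hF : RowF) (hG : RowG) : Pool.Agent.H98.RM.T3P Cert3P := by
  rintro a b c q p L M ⟨ha, hb, hc, hq, hq1, hp, hp1, hL, hM, d, hd, hd1, hC⟩
  exact hG a b c d q p L M ha hb hc hd hd1 hq hq1 hp hp1 hL hM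
    (hF a b c d q p L M ha hb hc hd hd1 hq hq1 hp hp1 hC)

/-- ROW AP. The finite `w` form of a polynomial certificate inequality. -/
def RowAP : Prop :=
  ∀ (n : ℕ) (cf : ℕ → ℕ → ℝ) (la l1 t C : ℝ) (m : ℕ), 0 ≤ la → 0 ≤ l1 → 0 ≤ t → t ≤ 1 → 0 ≤ C →
    (∀ y z : ℝ, pol n cf y z ≤ la * Real.exp (y + t * z) + l1 * (Real.exp y + Real.exp z)) →
    (∀ y z : ℝ, pol n cf y z ≤ C * (1 + (max y 0) ^ m + (max z 0) ^ m)) →
    ∀ ε : ℝ, 0 < ε → ∃ (e1 : ℝ) (W : ℕ), 0 < e1 ∧ e1 ≤ 1 / 2 ∧ 1 ≤ W ∧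
      ∀ w w' : ℕ, W ≤ w → W ≤ w' →
        ∀ y z y' z' : ℝ, |y - y'| ≤ e1 * |y'| → |z - z'| ≤ e1 * |z'| →
          pol n cf y' z'
            ≤ la * ((max (1 + y / w) 0) ^ w * (max (1 + t * z / w') 0) ^ w')
              + l1 * ((max (1 + y / w) 0) ^ w + (max (1 + z / w') 0) ^ w')
              + ε * (1 + (max (1 + y / w) 0) ^ w + (max (1 + z / w') 0) ^ w')

/-- ROW B3. Truncated Cauchy-Schwarz for the covariance with a density `T`. -/
def RowB3 : Prop :=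
  ∀ (V : Type) [DecidableEq V] (A : V → V → ℝ) (X Y : Finset V) (nu T pi : V → ℝ) (t0 : ℝ),
    IsProb Y nu → (∀ x y, 0 ≤ A x y) → (∀ x y, A x y ≤ 1) → (∀ y, 0 ≤ T y) →
    (∀ x ∈ X, 0 ≤ pi x) → ∑ x ∈ X, pi x = 1 → 0 ≤ t0 →
      ∑ x ∈ X, pi x * |∑ y ∈ Y, nu y * (A x y * T y)
          - (∑ y ∈ Y, nu y * A x y) * ∑ y ∈ Y, nu y * T y|
        ≤ t0 * Real.sqrt (∑ x ∈ X, ∑ x' ∈ X, pi x * pi x' * |∑ y ∈ Y, nu y * (A x y * A x' y)
            - (∑ y ∈ Y, nu y * A x y) * ∑ y ∈ Y, nu y * A x' y|)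
          + ∑ y ∈ Y, nu y * (if t0 < T y then T y else 0)

/-- Renyi sum of a weight -/
noncomputable def Ry {V : Type} (d : ℝ) (Y : Finset V) (nu : V → ℝ) : ℝ :=
  ∑ y ∈ Y, nu y ^ (1 + d)

/-- Renyi density of a weight -/
noncomputable def Td {V : Type} (d : ℝ) (Y : Finset V) (nu : V → ℝ) (y : V) : ℝ :=
  nu y ^ d / Ry d Y nu

/-- ROW C2. At a maximiser the Renyi density has no tail (replaces ROW C). -/
def RowC2 : Prop :=
  ∀ (a b d : ℝ), 0 < a → 0 < b → 0 < d → d ≤ 1 → ∀ ε : ℝ, 0 < ε → ∃ (t0 : ℝ) (W : ℕ), 0 < t0 ∧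
    ∀ (V : Type) [DecidableEq V] (Y : Finset V) (nu g : V → ℝ) (w : ℕ),
      IsProb Y nu → W ≤ w →
      (∀ f : V → ℝ, (∀ y, 0 ≤ f y) → ∑ y ∈ Y, nu y * f y = 1 →
        0 < 1 + ∑ y ∈ Y, nu y * ((f y - 1) * g y) →
        a * w * Real.log (1 + ∑ y ∈ Y, nu y * ((f y - 1) * g y))
          ≤ (b / d) * Real.log (Ry d Y (fun y => nu y * f y) / Ry d Y nu)) →
      ∑ y ∈ Y, nu y * (if t0 < Td d Y nu y then Td d Y nu y else 0) ≤ ε

/-- ROW F1. Comparison of potentials, real numbers only. -/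
def RowF1 : Prop :=
  ∀ (a b c d L S S' r r' z z' : ℝ), 0 < a → 0 < b → 0 < c → 0 < d → 0 ≤ S → 0 ≤ S' →
    0 < r → 0 < r' → 0 < z → 0 < z' →
    Real.exp (b * (-(1 / d) * Real.log r') + c * (-(1 / d) * Real.log z')) * S' ^ a
      ≤ Real.exp (-L) * (Real.exp (b * (-(1 / d) * Real.log r) + c * (-(1 / d) * Real.log z))
        * S ^ a) →
    S' ≤ Real.exp (-L / a) * ((r' / r) ^ (b / (a * d)) * (z' / z) ^ (c / (a * d))) * S

section F2
variable {V : Type} [DecidableEq V] (G : SimpleGraph V) [DecidableRel G.Adj]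

/-- conditioning on the red neighbourhood of `x` -/
noncomputable def cdR (Y : Finset V) (nu : V → ℝ) (x y : V) : ℝ :=
  nu y * rI G x y / dR G Y nu x

/-- conditioning on the blue neighbourhood of `x` -/
noncomputable def cdB (Z : Finset V) (ze : V → ℝ) (x y : V) : ℝ :=
  ze y * bI G x y / dB G Z ze x

/-- covariance of the red neighbourhood with the Renyi density -/
noncomputable def CR (d : ℝ) (Y : Finset V) (nu : V → ℝ) (x : V) : ℝ :=
  ∑ y ∈ Y, nu y * (rI G x y * Td d Y nu y) - dR G Y nu x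

/-- covariance of the blue neighbourhood with the Renyi density -/
noncomputable def CB (d : ℝ) (Z : Finset V) (ze : V → ℝ) (x : V) : ℝ :=
  ∑ y ∈ Z, ze y * (bI G x y * Td d Z ze y) - dB G Z ze x

end F2

/-- ROW F2. Conditionals and tilts (and the same with the colours exchanged). -/
def RowF2 : Prop :=
  ∀ (V : Type) [DecidableEq V] (G : SimpleGraph V) [DecidableRel G.Adj]
    (d t : ℝ) (Y Z : Finset V) (nu ze : V → ℝ) (x : V), 0 < d → d ≤ 1 → 0 ≤ t → t ≤ 1 →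
    IsProb Y nu → IsProb Z ze →
    (0 < dR G Y nu x →
      IsProb Y (cdR G Y nu x) ∧ IsProb (rN G x Y) (cdR G Y nu x) ∧
      Ry d (rN G x Y) (cdR G Y nu x) = Ry d Y (cdR G Y nu x) ∧
      Ry d Y (cdR G Y nu x) / Ry d Y nu = (dR G Y nu x + CR G d Y nu x) / dR G Y nu x ^ (1 + d) ∧
      0 < dR G Y nu x + CR G d Y nu x ∧
      dR G Y nu x + CR G d Y nu x ≤ 1 ∧
      (∀ x', dR G (rN G x Y) (cdR G Y nu x) x' = dR G Y (cdR G Y nu x) x' ∧
        dR G Y (cdR G Y nu x) x' - dR G Y nu x' = KR G Y nu x x' / dR G Y nu x) ∧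
      IsProb Y (tiltR G Y nu t x) ∧
      Ry d Y (tiltR G Y nu t x) / Ry d Y nu = phi d t (dR G Y nu x)
        + CR G d Y nu x * ((1 - t + t / dR G Y nu x) ^ (1 + d) - (1 - t) ^ (1 + d)) ∧
      (∀ x', dR G Y (tiltR G Y nu t x) x' - dR G Y nu x' = t * KR G Y nu x x' / dR G Y nu x)) ∧
    (0 < dB G Z ze x →
      IsProb Z (cdB G Z ze x) ∧ IsProb (bN G x Z) (cdB G Z ze x) ∧
      Ry d (bN G x Z) (cdB G Z ze x) = Ry d Z (cdB G Z ze x) ∧
      Ry d Z (cdB G Z ze x) / Ry d Z ze = (dB G Z ze x + CB G d Z ze x) / dB G Z ze x ^ (1 + d) ∧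
      0 < dB G Z ze x + CB G d Z ze x ∧
      dB G Z ze x + CB G d Z ze x ≤ 1 ∧
      (∀ x', dB G (bN G x Z) (cdB G Z ze x) x' = dB G Z (cdB G Z ze x) x' ∧
        dB G Z (cdB G Z ze x) x' - dB G Z ze x' = KB G Z ze x x' / dB G Z ze x) ∧
      IsProb Z (tiltB G Z ze t x) ∧
      Ry d Z (tiltB G Z ze t x) / Ry d Z ze = phi d t (dB G Z ze x)
        + CB G d Z ze x * ((1 - t + t / dB G Z ze x) ^ (1 + d) - (1 - t) ^ (1 + d)) ∧
      (∀ x', dB G Z (tiltB G Z ze t x) x' - dB G Z ze x' = t * KB G Z ze x x' / dB G Z ze x))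

/-- ROW F3. The Renyi densities at a maximiser have no tails, and the covariances of the
neighbourhoods with them are small on average (from RowC2, RowB3, RowB, RowE, RowF1, RowF2). -/
def RowF3 : Prop :=
  ∀ (a b c d q p : ℝ), 0 < a → 0 < b → 0 < c → 0 < d → d ≤ 1 → 0 < q → q < 1 →
    0 < p → p < 1 → ∀ ε : ℝ, 0 < ε → ∃ w0 : ℕ,
      ∀ (V : Type) [DecidableEq V] (G : SimpleGraph V) [DecidableRel G.Adj]
        (X Y Z : Finset V) (nu ze : V → ℝ) (w w' : ℕ),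
        w0 ≤ w → w0 ≤ w' → IsProb Y nu → IsProb Z ze →
        0 < SS G q p w w' X Y Z nu ze →
        (∀ nu' ze' : V → ℝ, IsProb Y nu' → IsProb Z ze' →
          PP G a b c d q p w w' X Y Z nu' ze' ≤ PP G a b c d q p w w' X Y Z nu ze) →
        (∑ x ∈ X, wt G q p w w' Y Z nu ze x * |CR G d Y nu x|
          ≤ ε * SS G q p w w' X Y Z nu ze) ∧
        (∑ x ∈ X, wt G q p w w' Y Z nu ze x * |CB G d Z ze x|
          ≤ ε * SS G q p w w' X Y Z nu ze)

/-- ROW F4. One sided moments of the normalised kernels, for every `x` of positive weight. -/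
def RowF4 : Prop :=
  ∀ (a b c d q p : ℝ), 0 < a → 0 < b → 0 < c → 0 < d → d ≤ 1 → 0 < q → q < 1 →
    0 < p → p < 1 →
      ∀ (V : Type) [DecidableEq V] (G : SimpleGraph V) [DecidableRel G.Adj]
        (X Y Z : Finset V) (nu ze : V → ℝ) (w w' : ℕ),
        1 ≤ w → 1 ≤ w' → IsProb Y nu → IsProb Z ze →
        0 < SS G q p w w' X Y Z nu ze →
        (∀ nu' ze' : V → ℝ, IsProb Y nu' → IsProb Z ze' →
          PP G a b c d q p w w' X Y Z nu' ze' ≤ PP G a b c d q p w w' X Y Z nu ze) →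
        (∀ x, q ≤ dR G Y nu x → ∑ x' ∈ X, wt G q p w w' Y Z nu ze x' *
            (max (1 + KR G Y nu x x' / (dR G Y nu x * (dR G Y nu x' - q))) 0) ^ w
          ≤ q ^ (-(b * (1 + d)) / (a * d)) * SS G q p w w' X Y Z nu ze) ∧
        (∀ x, p ≤ dB G Z ze x → ∑ x' ∈ X, wt G q p w w' Y Z nu ze x' *
            (max (1 + KB G Z ze x x' / (dB G Z ze x * (dB G Z ze x' - p))) 0) ^ w'
          ≤ p ^ (-(c * (1 + d)) / (a * d)) * SS G q p w w' X Y Z nu ze)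

end Pool.Agent.H34.RM
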