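import Pool.Agent.H34.RM.Rows2

/-!
Three lemmas for the last step of row F.
-/

open Finset

namespace Pool.Agent.H34.RM

open Pool.Agent.H92

/-- GOODMASS. The good set has almost full weight. -/
def GoodMass : Prop :=
  ∀ (V : Type) [DecidableEq V] (X : Finset V) (W r r' C C' : V → ℝ) (δ1 δ2 e0 εF : ℝ),
    (∀ x ∈ X, 0 ≤ W x) → (∀ x ∈ X, 0 < W x → 0 < r x ∧ 0 < r' x) → 0 < δ1 → 0 < δ2 →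
    ∑ x ∈ X, W x * r x ^ 2 ≤ (1 + e0) * ∑ x ∈ X, W x →
    ∑ x ∈ X, W x * (1 / r x) ≤ (1 + e0) * ∑ x ∈ X, W x →
    ∑ x ∈ X, W x * r' x ^ 2 ≤ (1 + e0) * ∑ x ∈ X, W x →
    ∑ x ∈ X, W x * (1 / r' x) ≤ (1 + e0) * ∑ x ∈ X, W x →
    ∑ x ∈ X, W x * |C x| ≤ εF * ∑ x ∈ X, W x →
    ∑ x ∈ X, W x * |C' x| ≤ εF * ∑ x ∈ X, W x →
    ∀ Ξ : Finset V, Ξ ⊆ X →
      (∀ x ∈ X, 0 < W x → |r x - 1| ≤ δ1 → |r' x - 1| ≤ δ1 → |C x| ≤ δ2 → |C' x| ≤ δ2 → x ∈ Ξ) →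
      (1 - (6 * e0 / δ1 ^ 2 + 2 * εF / δ2)) * ∑ x ∈ X, W x ≤ ∑ x ∈ Ξ, W x

/-- GRAMPOL. Positivity of a polynomial in the two covariance kernels. -/
def GramPol : Prop :=
  ∀ (V : Type) [DecidableEq V] (G : SimpleGraph V) [DecidableRel G.Adj]
    (Ξ Y Z : Finset V) (nu ze W : V → ℝ), IsProb Y nu → IsProb Z ze →
    ∀ (al be : ℝ) (n : ℕ) (cf : ℕ → ℕ → ℝ), 0 ≤ al → 0 ≤ be → 1 ≤ n → (∀ i j, 0 ≤ cf i j) →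
      cf 0 0 * (∑ x ∈ Ξ, W x) ^ 2
        ≤ ∑ x ∈ Ξ, ∑ x' ∈ Ξ, W x * W x' * pol n cf (al * KR G Y nu x x') (be * KB G Z ze x x')

/-- DIAGPOL. Crude bound for the diagonal terms. -/
def DiagPol : Prop :=
  ∀ (q p : ℝ) (n : ℕ) (cf : ℕ → ℕ → ℝ), 0 < q → 0 < p → (∀ i j, 0 ≤ cf i j) →
    ∃ C5 : ℝ, 0 ≤ C5 ∧ ∀ (w w' : ℕ) (em em' k k' : ℝ), 1 ≤ w → 1 ≤ w' → 0 < em → em ≤ 1 →
      0 < em' → em' ≤ 1 → |k| ≤ 1 → |k'| ≤ 1 →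
      pol n cf (w / ((q + em) * em) * k) (w' / ((p + em') * em') * k')
        ≤ C5 * (((w : ℝ) + w') / (em * em')) ^ (2 * n)

end Pool.Agent.H34.RM
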