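import Pool.Agent.H34.RM.FC
import Pool.Agent.H84.RM.RowAP
import Pool.Agent.H20.RM.B3
import Pool.Agent.H20.RM.RowB
import Pool.Agent.H20.RM.RowF3
import Pool.Agent.H68.RM.RowC2
import Pool.Agent.H68.RM.Dbl2
import Pool.Agent.H74.RM.RowDE
import Pool.Agent.H74.RM.RowF2
import Pool.Agent.H33.RM.RowF
import Pool.Agent.H92.RM.RowG

/-!
The three set theorem with polynomial certificates.
-/

namespace Pool.Agent.H34.RM

/-- The local theorem. -/
theorem rowF_all : RowF :=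
  rowF Pool.Agent.H84.RM.rowAP Pool.Agent.H74.RM.rowD Pool.Agent.H74.RM.rowE
    Pool.Agent.H33.RM.rowF1 Pool.Agent.H74.RM.rowF2
    (Pool.Agent.H20.RM.rowF3 Pool.Agent.H68.RM.rowC2) Pool.Agent.H33.RM.rowF5
    Pool.Agent.H68.RM.goodMass Pool.Agent.H68.RM.gramPol Pool.Agent.H68.RM.diagPol

/-- The three set theorem. -/
theorem t3 : Pool.Agent.H98.RM.T3P Cert3P := t3P rowF_all Pool.Agent.H92.RM.rowG

end Pool.Agent.H34.RM
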