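import Pool.Agent.H34.RM.Rows2

/-!
Children of a maximiser (part of row F).
-/

open Finset

namespace Pool.Agent.H34.RM

open Pool.Agent.H92

section basic
variable {V : Type} [DecidableEq V] (G : SimpleGraph V) [DecidableRel G.Adj]

omit [DecidableEq V] in
theorem rI_nonneg (x y : V) : 0 ≤ rI G x y := by unfold rI; split_ifs <;> norm_num
omit [DecidableEq V] in
theorem rI_le_one (x y : V) : rI G x y ≤ 1 := by unfold rI; split_ifs <;> norm_num
theorem bI_nonneg (x y : V) : 0 ≤ bI G x y := by unfold bI; split_ifs <;> norm_num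
theorem bI_le_one (x y : V) : bI G x y ≤ 1 := by unfold bI; split_ifs <;> norm_num

omit [DecidableEq V] in
theorem Ry_pos {d : ℝ} {Y : Finset V} {nu : V → ℝ} (h : IsProb Y nu) :
    0 < Ry d Y nu := by
  unfold Ry
  have h1 : ∃ y ∈ Y, 0 < nu y := by
    by_contra hc
    push Not at hc
    have : ∑ y ∈ Y, nu y ≤ 0 := Finset.sum_nonpos hc
    rw [h.sum] at this
    linarith
  obtain ⟨y, hy, hy0⟩ := h1
  exact lt_of_lt_of_le (Real.rpow_pos_of_pos hy0 _)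
    (Finset.single_le_sum (f := fun y => nu y ^ (1 + d))
      (fun i _ => Real.rpow_nonneg (h.nonneg i) _) hy)

omit [DecidableEq V] in
theorem avg_nonneg {Y : Finset V} {nu f : V → ℝ} (h : IsProb Y nu) (h0 : ∀ y, 0 ≤ f y) :
    0 ≤ ∑ y ∈ Y, nu y * f y :=
  Finset.sum_nonneg fun y _ => mul_nonneg (h.nonneg y) (h0 y)

omit [DecidableEq V] in
theorem avg_le_one {Y : Finset V} {nu f : V → ℝ} (h : IsProb Y nu) (h0 : ∀ y, f y ≤ 1) :
    ∑ y ∈ Y, nu y * f y ≤ 1 := by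
  calc ∑ y ∈ Y, nu y * f y ≤ ∑ y ∈ Y, nu y * 1 :=
        Finset.sum_le_sum fun y _ => mul_le_mul_of_nonneg_left (h0 y) (h.nonneg y)
    _ = 1 := by simp [h.sum]

omit [DecidableEq V] in
theorem dR_nonneg {Y : Finset V} {nu : V → ℝ} (h : IsProb Y nu) (x : V) : 0 ≤ dR G Y nu x :=
  avg_nonneg h (rI_nonneg G x)
omit [DecidableEq V] in
theorem dR_le_one {Y : Finset V} {nu : V → ℝ} (h : IsProb Y nu) (x : V) : dR G Y nu x ≤ 1 :=
  avg_le_one h (rI_le_one G x)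
theorem dB_nonneg {Y : Finset V} {nu : V → ℝ} (h : IsProb Y nu) (x : V) : 0 ≤ dB G Y nu x :=
  avg_nonneg h (bI_nonneg G x)
theorem dB_le_one {Y : Finset V} {nu : V → ℝ} (h : IsProb Y nu) (x : V) : dB G Y nu x ≤ 1 :=
  avg_le_one h (bI_le_one G x)

omit [DecidableEq V] in
theorem abs_KR_le {Y : Finset V} {nu : V → ℝ} (h : IsProb Y nu) (x x' : V) :
    |KR G Y nu x x'| ≤ 1 := by
  have h1 : 0 ≤ ∑ y ∈ Y, nu y * (rI G x y * rI G x' y) :=
    avg_nonneg h fun y => mul_nonneg (rI_nonneg G x y) (rI_nonneg G x' y)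
  have h2 : ∑ y ∈ Y, nu y * (rI G x y * rI G x' y) ≤ 1 :=
    avg_le_one h fun y => mul_le_one₀ (rI_le_one G x y) (rI_nonneg G x' y) (rI_le_one G x' y)
  have h3 : 0 ≤ dR G Y nu x * dR G Y nu x' := mul_nonneg (dR_nonneg G h x) (dR_nonneg G h x')
  have h4 : dR G Y nu x * dR G Y nu x' ≤ 1 :=
    mul_le_one₀ (dR_le_one G h x) (dR_nonneg G h x') (dR_le_one G h x')
  unfold KR
  rw [abs_le]
  constructor <;> linarith

theorem abs_KB_le {Y : Finset V} {nu : V → ℝ} (h : IsProb Y nu) (x x' : V) :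
    |KB G Y nu x x'| ≤ 1 := by
  have h1 : 0 ≤ ∑ y ∈ Y, nu y * (bI G x y * bI G x' y) :=
    avg_nonneg h fun y => mul_nonneg (bI_nonneg G x y) (bI_nonneg G x' y)
  have h2 : ∑ y ∈ Y, nu y * (bI G x y * bI G x' y) ≤ 1 :=
    avg_le_one h fun y => mul_le_one₀ (bI_le_one G x y) (bI_nonneg G x' y) (bI_le_one G x' y)
  have h3 : 0 ≤ dB G Y nu x * dB G Y nu x' := mul_nonneg (dB_nonneg G h x) (dB_nonneg G h x')
  have h4 : dB G Y nu x * dB G Y nu x' ≤ 1 :=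
    mul_le_one₀ (dB_le_one G h x) (dB_nonneg G h x') (dB_le_one G h x')
  unfold KB
  rw [abs_le]
  constructor <;> linarith

theorem wt_nonneg (q p : ℝ) (w w' : ℕ) (Y Z : Finset V) (nu ze : V → ℝ) (x : V) :
    0 ≤ wt G q p w w' Y Z nu ze x := by
  unfold wt
  positivity

theorem SS_nonneg (q p : ℝ) (w w' : ℕ) (X Y Z : Finset V) (nu ze : V → ℝ) :
    0 ≤ SS G q p w w' X Y Z nu ze :=
  Finset.sum_nonneg fun x _ => wt_nonneg G q p w w' Y Z nu ze x

theorem wt_pos_left {q p : ℝ} {w w' : ℕ} (hw : 1 ≤ w) {Y Z : Finset V} {nu ze : V → ℝ} {x : V}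
    (h : 0 < wt G q p w w' Y Z nu ze x) : q < dR G Y nu x := by
  by_contra hc
  push Not at hc
  have : max (dR G Y nu x - q) 0 = 0 := max_eq_right (by linarith)
  unfold wt at h
  rw [this, zero_pow (by omega), zero_mul] at h
  exact lt_irrefl _ h

theorem wt_pos_right {q p : ℝ} {w w' : ℕ} (hw' : 1 ≤ w') {Y Z : Finset V} {nu ze : V → ℝ} {x : V}
    (h : 0 < wt G q p w w' Y Z nu ze x) : p < dB G Z ze x := by
  by_contra hc
  push Not at hc
  have : max (dB G Z ze x - p) 0 = 0 := max_eq_right (by linarith)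
  unfold wt at h
  rw [this, zero_pow (by omega), mul_zero] at h
  exact lt_irrefl _ h

end basic

/-- cost of a child, with an error `δ` -/
noncomputable def kap (a b c d q p L t δ : ℝ) : ℝ :=
  Real.exp (-L / a) * ((q ^ (-d) * (1 + δ / q)) ^ (b / (a * d)) *
    (phi d t p + δ * (1 - t + t / p) ^ (1 + d)) ^ (c / (a * d)))

/-- bound for the conditioning ratio -/
theorem cond_ratio {d q δ r C : ℝ} (hd : 0 < d) (hq : 0 < q) (hqr : q ≤ r)
    (hC : |C| ≤ δ) : (r + C) / r ^ (1 + d) ≤ q ^ (-d) * (1 + δ / q) := by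
  have hr : 0 < r := lt_of_lt_of_le hq hqr
  have hδ : 0 ≤ δ := le_trans (abs_nonneg _) hC
  have h1 : (r + C) / r ^ (1 + d) = r ^ (-d) * (1 + C / r) := by
    rw [Real.rpow_add hr, Real.rpow_one, Real.rpow_neg hr.le]
    have : r ^ d ≠ 0 := (Real.rpow_pos_of_pos hr d).ne'
    field_simp
  rw [h1]
  have h2 : r ^ (-d) ≤ q ^ (-d) :=
    Real.antitoneOn_rpow_Ioi_of_exponent_nonpos (by linarith) (Set.mem_Ioi.2 hq)
      (Set.mem_Ioi.2 hr) hqr
  have h3 : C / r ≤ δ / q := by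
    calc C / r ≤ δ / r := by
          exact div_le_div_of_nonneg_right (le_trans (le_abs_self _) hC) hr.le
      _ ≤ δ / q := div_le_div_of_nonneg_left hδ hq hqr
  calc r ^ (-d) * (1 + C / r) ≤ r ^ (-d) * (1 + δ / q) :=
        mul_le_mul_of_nonneg_left (by linarith) (Real.rpow_nonneg hr.le _)
    _ ≤ q ^ (-d) * (1 + δ / q) :=
        mul_le_mul_of_nonneg_right h2 (by positivity)

/-- bound for the tilting ratio -/
theorem tilt_ratio (hD : RowD) {d t p δ r C : ℝ} (hd : 0 < d) (hd1 : d ≤ 1) (ht : 0 ≤ t)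
    (ht1 : t ≤ 1) (hp : 0 < p) (hpr : p ≤ r) (hr1 : r ≤ 1) (hC : |C| ≤ δ) :
    phi d t r + C * ((1 - t + t / r) ^ (1 + d) - (1 - t) ^ (1 + d))
      ≤ phi d t p + δ * (1 - t + t / p) ^ (1 + d) := by
  have hr : 0 < r := lt_of_lt_of_le hp hpr
  have hδ : 0 ≤ δ := le_trans (abs_nonneg _) hC
  have h1 := hD d t p r hd hd1 ht ht1 hp hpr hr1
  have h2 : (1 - t) ^ (1 + d) ≤ (1 - t + t / r) ^ (1 + d) :=
    Real.rpow_le_rpow (by linarith) (by have := div_nonneg ht hr.le; linarith) (by linarith)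
  have h3 : (1 - t + t / r) ^ (1 + d) ≤ (1 - t + t / p) ^ (1 + d) := by
    refine Real.rpow_le_rpow (by have := div_nonneg ht hr.le; linarith) ?_ (by linarith)
    have := div_le_div_of_nonneg_left ht hp hpr
    linarith
  have h4 : 0 ≤ (1 - t) ^ (1 + d) := Real.rpow_nonneg (by linarith) _
  have h5 : C * ((1 - t + t / r) ^ (1 + d) - (1 - t) ^ (1 + d))
      ≤ δ * (1 - t + t / p) ^ (1 + d) := by
    calc C * ((1 - t + t / r) ^ (1 + d) - (1 - t) ^ (1 + d))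
        ≤ δ * ((1 - t + t / r) ^ (1 + d) - (1 - t) ^ (1 + d)) :=
          mul_le_mul_of_nonneg_right (le_trans (le_abs_self _) hC) (by linarith)
      _ ≤ δ * (1 - t + t / p) ^ (1 + d) := mul_le_mul_of_nonneg_left (by linarith) hδ
  linarith

section child
variable {V : Type} [DecidableEq V] (G : SimpleGraph V) [DecidableRel G.Adj]

theorem red_child (hD : RowD) (hE : RowE) (hF1 : RowF1) (hF2 : RowF2)
    {a b c d q p L t δ : ℝ} (ha : 0 < a) (hb : 0 < b) (hc : 0 < c) (hd : 0 < d) (hd1 : d ≤ 1)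
    (hq : 0 < q) (hp : 0 < p) (ht : 0 ≤ t) (ht1 : t ≤ 1)
    {X Y Z : Finset V} {nu ze : V → ℝ} {w w' : ℕ} (hw : 1 ≤ w) (hw' : 1 ≤ w')
    (hnu : IsProb Y nu) (hze : IsProb Z ze) (x : V)
    (hqx : q ≤ dR G Y nu x) (hpx : p ≤ dB G Z ze x)
    (hCR : |CR G d Y nu x| ≤ δ) (hCB : |CB G d Z ze x| ≤ δ)
    (hch : ∀ nu' ze' : V → ℝ, IsProb (rN G x Y) nu' → IsProb Z ze' →
          PP G a b c d q p w w' (rN G x X) (rN G x Y) Z nu' ze'
            ≤ Real.exp (-L) * PP G a b c d q p w w' X Y Z nu ze) :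
    ∑ x' ∈ rN G x X, wt G q p w w' Y Z nu ze x' *
        ((max (1 + KR G Y nu x x' / (dR G Y nu x * (dR G Y nu x' - q))) 0) ^ w *
          (max (1 + t * (KB G Z ze x x' / (dB G Z ze x * (dB G Z ze x' - p)))) 0) ^ w')
      ≤ kap a b c d q p L t δ * SS G q p w w' X Y Z nu ze := by
  have hqx0 : 0 < dR G Y nu x := lt_of_lt_of_le hq hqx
  have hpx0 : 0 < dB G Z ze x := lt_of_lt_of_le hp hpx
  obtain ⟨hR, hB⟩ := hF2 V G d t Y Z nu ze x hd hd1 ht ht1 hnu hze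
  obtain ⟨r1, r2, r3, r4, r5, r6, r7, _⟩ := hR hqx0
  obtain ⟨_, _, _, _, _, _, _, b8, b9, b10⟩ := hB hpx0
  have hP := hch _ _ r2 b8
  have hF := hF1 a b c d L (SS G q p w w' X Y Z nu ze)
    (SS G q p w w' (rN G x X) (rN G x Y) Z (cdR G Y nu x) (tiltB G Z ze t x))
    (Ry d Y nu) (Ry d (rN G x Y) (cdR G Y nu x)) (Ry d Z ze) (Ry d Z (tiltB G Z ze t x))
    ha hb hc hd (SS_nonneg G _ _ _ _ _ _ _ _ _) (SS_nonneg G _ _ _ _ _ _ _ _ _)
    (Ry_pos hnu) (Ry_pos r2) (Ry_pos hze) (Ry_pos b8) hP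
  rw [r3, r4, b9] at hF
  have hS : SS G q p w w' (rN G x X) (rN G x Y) Z (cdR G Y nu x) (tiltB G Z ze t x)
      = SS G q p w w' (rN G x X) Y Z (cdR G Y nu x) (tiltB G Z ze t x) := by
    unfold SS wt
    refine Finset.sum_congr rfl fun x' _ => ?_
    rw [(r7 x').1]
  rw [hS] at hF
  have hEE := hE q p w w' V G X (rN G x X) Y Z nu ze (cdR G Y nu x) (tiltB G Z ze t x) hw hw'
    (by unfold rN; exact Finset.filter_subset _ _)
  have hterm : ∑ x' ∈ rN G x X, wt G q p w w' Y Z nu ze x' *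
        ((max (1 + KR G Y nu x x' / (dR G Y nu x * (dR G Y nu x' - q))) 0) ^ w *
          (max (1 + t * (KB G Z ze x x' / (dB G Z ze x * (dB G Z ze x' - p)))) 0) ^ w')
      = ∑ x' ∈ rN G x X, wt G q p w w' Y Z nu ze x' *
        ((max (1 + (dR G Y (cdR G Y nu x) x' - dR G Y nu x') / (dR G Y nu x' - q)) 0) ^ w *
          (max (1 + (dB G Z (tiltB G Z ze t x) x' - dB G Z ze x') / (dB G Z ze x' - p)) 0) ^ w') := by
    refine Finset.sum_congr rfl fun x' _ => ?_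
    rw [(r7 x').2, b10 x', div_div, mul_div_assoc, mul_div_assoc, div_div]
  rw [hterm]
  refine le_trans hEE (le_trans hF ?_)
  refine mul_le_mul_of_nonneg_right ?_ (SS_nonneg G _ _ _ _ _ _ _ _ _)
  unfold kap
  refine mul_le_mul_of_nonneg_left ?_ (Real.exp_pos _).le
  have e1 : 0 ≤ b / (a * d) := by positivity
  have e2 : 0 ≤ c / (a * d) := by positivity
  have g1 : 0 ≤ (dR G Y nu x + CR G d Y nu x) / dR G Y nu x ^ (1 + d) :=
    div_nonneg r5.le (Real.rpow_nonneg hqx0.le _)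
  have g2 : 0 ≤ phi d t (dB G Z ze x)
        + CB G d Z ze x * ((1 - t + t / dB G Z ze x) ^ (1 + d) - (1 - t) ^ (1 + d)) := by
    rw [← b9]
    exact (div_pos (Ry_pos b8) (Ry_pos hze)).le
  have f1 := Real.rpow_le_rpow g1 (cond_ratio hd hq hqx hCR) e1
  have f2 := Real.rpow_le_rpow g2
    (tilt_ratio hD hd hd1 ht ht1 hp hpx (dB_le_one G hze x) hCB) e2
  exact mul_le_mul f1 f2 (Real.rpow_nonneg g2 _) (le_trans (Real.rpow_nonneg g1 _) f1)

theorem blue_child (hD : RowD) (hE : RowE) (hF1 : RowF1) (hF2 : RowF2)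
    {a b c d q p M s δ : ℝ} (ha : 0 < a) (hb : 0 < b) (hc : 0 < c) (hd : 0 < d) (hd1 : d ≤ 1)
    (hq : 0 < q) (hp : 0 < p) (ht : 0 ≤ s) (ht1 : s ≤ 1)
    {X Y Z : Finset V} {nu ze : V → ℝ} {w w' : ℕ} (hw : 1 ≤ w) (hw' : 1 ≤ w')
    (hnu : IsProb Y nu) (hze : IsProb Z ze) (x : V)
    (hqx : q ≤ dR G Y nu x) (hpx : p ≤ dB G Z ze x)
    (hCR : |CR G d Y nu x| ≤ δ) (hCB : |CB G d Z ze x| ≤ δ)
    (hch : ∀ nu' ze' : V → ℝ, IsProb Y nu' → IsProb (bN G x Z) ze' →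
          PP G a b c d q p w w' (bN G x X) Y (bN G x Z) nu' ze'
            ≤ Real.exp (-M) * PP G a b c d q p w w' X Y Z nu ze) :
    ∑ x' ∈ bN G x X, wt G q p w w' Y Z nu ze x' *
        ((max (1 + KB G Z ze x x' / (dB G Z ze x * (dB G Z ze x' - p))) 0) ^ w' *
          (max (1 + s * (KR G Y nu x x' / (dR G Y nu x * (dR G Y nu x' - q)))) 0) ^ w)
      ≤ kap a c b d p q M s δ * SS G q p w w' X Y Z nu ze := by
  have hqx0 : 0 < dR G Y nu x := lt_of_lt_of_le hq hqx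
  have hpx0 : 0 < dB G Z ze x := lt_of_lt_of_le hp hpx
  obtain ⟨hR, hB⟩ := hF2 V G d s Y Z nu ze x hd hd1 ht ht1 hnu hze
  obtain ⟨_, _, _, _, _, _, _, r8, r9, r10⟩ := hR hqx0
  obtain ⟨b1, b2, b3, b4, b5, b6, b7, _⟩ := hB hpx0
  have hP := hch _ _ r8 b2
  have hF := hF1 a b c d M (SS G q p w w' X Y Z nu ze)
    (SS G q p w w' (bN G x X) Y (bN G x Z) (tiltR G Y nu s x) (cdB G Z ze x))
    (Ry d Y nu) (Ry d Y (tiltR G Y nu s x)) (Ry d Z ze) (Ry d (bN G x Z) (cdB G Z ze x))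
    ha hb hc hd (SS_nonneg G _ _ _ _ _ _ _ _ _) (SS_nonneg G _ _ _ _ _ _ _ _ _)
    (Ry_pos hnu) (Ry_pos r8) (Ry_pos hze) (Ry_pos b2) hP
  rw [b3, b4, r9] at hF
  have hS : SS G q p w w' (bN G x X) Y (bN G x Z) (tiltR G Y nu s x) (cdB G Z ze x)
      = SS G q p w w' (bN G x X) Y Z (tiltR G Y nu s x) (cdB G Z ze x) := by
    unfold SS wt
    refine Finset.sum_congr rfl fun x' _ => ?_
    rw [(b7 x').1]
  rw [hS] at hF
  have hEE := hE q p w w' V G X (bN G x X) Y Z nu ze (tiltR G Y nu s x) (cdB G Z ze x) hw hw'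
    (by unfold bN; exact Finset.filter_subset _ _)
  have hterm : ∑ x' ∈ bN G x X, wt G q p w w' Y Z nu ze x' *
        ((max (1 + KB G Z ze x x' / (dB G Z ze x * (dB G Z ze x' - p))) 0) ^ w' *
          (max (1 + s * (KR G Y nu x x' / (dR G Y nu x * (dR G Y nu x' - q)))) 0) ^ w)
      = ∑ x' ∈ bN G x X, wt G q p w w' Y Z nu ze x' *
        ((max (1 + (dR G Y (tiltR G Y nu s x) x' - dR G Y nu x') / (dR G Y nu x' - q)) 0) ^ w *
          (max (1 + (dB G Z (cdB G Z ze x) x' - dB G Z ze x') / (dB G Z ze x' - p)) 0) ^ w') := by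
    refine Finset.sum_congr rfl fun x' _ => ?_
    have h1 : s * KR G Y nu x x' / dR G Y nu x / (dR G Y nu x' - q)
        = s * (KR G Y nu x x' / (dR G Y nu x * (dR G Y nu x' - q))) := by
      rw [mul_div_assoc, mul_div_assoc, div_div]
    rw [(b7 x').2, r10 x', h1, div_div]
    ring
  rw [hterm]
  refine le_trans hEE (le_trans hF ?_)
  refine mul_le_mul_of_nonneg_right ?_ (SS_nonneg G _ _ _ _ _ _ _ _ _)
  unfold kap
  refine mul_le_mul_of_nonneg_left ?_ (Real.exp_pos _).le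
  have e1 : 0 ≤ b / (a * d) := by positivity
  have e2 : 0 ≤ c / (a * d) := by positivity
  have g1 : 0 ≤ (dB G Z ze x + CB G d Z ze x) / dB G Z ze x ^ (1 + d) :=
    div_nonneg b5.le (Real.rpow_nonneg hpx0.le _)
  have g2 : 0 ≤ phi d s (dR G Y nu x)
        + CR G d Y nu x * ((1 - s + s / dR G Y nu x) ^ (1 + d) - (1 - s) ^ (1 + d)) := by
    rw [← r9]
    exact (div_pos (Ry_pos r8) (Ry_pos hnu)).le
  have f1 := Real.rpow_le_rpow g1 (cond_ratio hd hp hpx hCB) e2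
  have f2 := Real.rpow_le_rpow g2
    (tilt_ratio hD hd hd1 ht ht1 hq hqx (dR_le_one G hnu x) hCR) e1
  rw [mul_comm]
  exact mul_le_mul f1 f2 (Real.rpow_nonneg g2 _) (le_trans (Real.rpow_nonneg g1 _) f1)

end child

end Pool.Agent.H34.RM
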