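import Pool.Agent.H34.RM.FA
import Pool.Agent.H34.RM.Rows3

/-!
The double sum (part of row F).
-/

open Finset

namespace Pool.Agent.H34.RM

open Pool.Agent.H92

theorem row_abs {V : Type} [DecidableEq V] (G : SimpleGraph V) [DecidableRel G.Adj]
    (X Ξ : Finset V) (hΞ : Ξ ⊆ X) (W : V → ℝ) (hW : ∀ x, 0 ≤ W x) (P A B By Bz : V → ℝ)
    (la la' l1 ε ε4 kR kB K0 K0' S : ℝ) (hla : 0 ≤ la) (hla' : 0 ≤ la') (hl1 : 0 ≤ l1)
    (hε : 0 ≤ ε) (hA0 : ∀ x', 0 ≤ A x') (hB0 : ∀ x', 0 ≤ B x')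
    (hBy0 : ∀ x', 0 ≤ By x') (hBz0 : ∀ x', 0 ≤ Bz x') (x : V) (hx : x ∈ Ξ)
    (hPR : ∀ x' ∈ Ξ, P x' ≤ la * A x' + (l1 + ε) * (By x' + Bz x') + ε)
    (hPB : ∀ x' ∈ Ξ, P x' ≤ la' * B x' + (l1 + ε) * (By x' + Bz x') + ε)
    (hA : ∑ x' ∈ rN G x X, W x' * A x' ≤ kR * S)
    (hB : ∑ x' ∈ bN G x X, W x' * B x' ≤ kB * S)
    (hBy : ∑ x' ∈ X, W x' * By x' ≤ K0 * S) (hBz : ∑ x' ∈ X, W x' * Bz x' ≤ K0' * S)
    (hdiag : W x * P x ≤ ε4 * S) (hS : ∑ x' ∈ X, W x' = S) :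
    ∑ x' ∈ Ξ, W x' * P x' ≤ (la * kR + la' * kB + (l1 + ε) * (K0 + K0') + ε + ε4) * S := by
  have hpt : ∀ x' ∈ Ξ, W x' * P x' ≤ (if x' = x then W x' * P x' else 0)
      + (if G.Adj x x' then la * (W x' * A x') else 0)
      + (if x' ≠ x ∧ ¬ G.Adj x x' then la' * (W x' * B x') else 0)
      + ((l1 + ε) * (W x' * By x' + W x' * Bz x') + ε * W x') := by
    intro x' hx'
    have h0 : 0 ≤ (l1 + ε) * (W x' * By x' + W x' * Bz x') + ε * W x' := by
      have := hW x'; have := hBy0 x'; have := hBz0 x'; positivity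
    by_cases h1 : x' = x
    · subst h1
      simp only [if_true, SimpleGraph.irrefl, if_false, ne_eq, not_true_eq_false, false_and]
      linarith
    · by_cases h2 : G.Adj x x'
      · rw [if_neg h1, if_pos h2, if_neg (by tauto)]
        have := mul_le_mul_of_nonneg_left (hPR x' hx') (hW x')
        linarith
      · rw [if_neg h1, if_neg h2, if_pos ⟨h1, h2⟩]
        have := mul_le_mul_of_nonneg_left (hPB x' hx') (hW x')
        linarith
  have hsum := Finset.sum_le_sum hpt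
  rw [Finset.sum_add_distrib, Finset.sum_add_distrib, Finset.sum_add_distrib] at hsum
  have h1 : ∑ x' ∈ Ξ, (if x' = x then W x' * P x' else 0) ≤ ε4 * S := by
    rw [Finset.sum_ite_eq' Ξ x (fun x' => W x' * P x'), if_pos hx]
    exact hdiag
  have h2 : ∑ x' ∈ Ξ, (if G.Adj x x' then la * (W x' * A x') else 0) ≤ la * (kR * S) := by
    rw [← Finset.sum_filter, ← Finset.mul_sum]
    refine mul_le_mul_of_nonneg_left (le_trans ?_ hA) hla
    refine Finset.sum_le_sum_of_subset_of_nonneg ?_ fun i _ _ => mul_nonneg (hW i) (hA0 i)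
    unfold rN
    exact Finset.filter_subset_filter _ hΞ
  have h3 : ∑ x' ∈ Ξ, (if x' ≠ x ∧ ¬ G.Adj x x' then la' * (W x' * B x') else 0)
      ≤ la' * (kB * S) := by
    rw [← Finset.sum_filter, ← Finset.mul_sum]
    refine mul_le_mul_of_nonneg_left (le_trans ?_ hB) hla'
    refine Finset.sum_le_sum_of_subset_of_nonneg ?_ fun i _ _ => mul_nonneg (hW i) (hB0 i)
    unfold bN
    exact Finset.filter_subset_filter _ hΞ
  have h4 : ∑ x' ∈ Ξ, ((l1 + ε) * (W x' * By x' + W x' * Bz x') + ε * W x')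
      ≤ (l1 + ε) * ((K0 + K0') * S) + ε * S := by
    have h5 : ∑ x' ∈ Ξ, ((l1 + ε) * (W x' * By x' + W x' * Bz x') + ε * W x')
        ≤ ∑ x' ∈ X, ((l1 + ε) * (W x' * By x' + W x' * Bz x') + ε * W x') := by
      refine Finset.sum_le_sum_of_subset_of_nonneg hΞ fun i _ _ => ?_
      have := hW i; have := hBy0 i; have := hBz0 i; positivity
    refine le_trans h5 ?_
    rw [Finset.sum_add_distrib, ← Finset.mul_sum, ← Finset.mul_sum, Finset.sum_add_distrib, hS]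
    have h6 : 0 ≤ l1 + ε := by linarith
    have := mul_le_mul_of_nonneg_left (add_le_add hBy hBz) h6
    linarith
  linarith

theorem fin_abs {V : Type} [DecidableEq V] 
    (X Ξ : Finset V) (W : V → ℝ) (hW : ∀ x, 0 ≤ W x) (P : V → V → ℝ)
    (T S ε3 c00 : ℝ) (hS0 : 0 < S) (hT : 0 ≤ T) (hc : 0 ≤ c00) (hΞ : Ξ ⊆ X)
    (hS : ∑ x' ∈ X, W x' = S) (hε3 : ε3 ≤ 1)
    (hrow : ∀ x ∈ Ξ, ∑ x' ∈ Ξ, W x' * P x x' ≤ T * S)
    (hmass : (1 - ε3) * S ≤ ∑ x ∈ Ξ, W x)
    (hgram : c00 * (∑ x ∈ Ξ, W x) ^ 2 ≤ ∑ x ∈ Ξ, ∑ x' ∈ Ξ, W x * W x' * P x x') :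
    c00 * (1 - ε3) ^ 2 ≤ T := by
  have h1 : ∑ x ∈ Ξ, ∑ x' ∈ Ξ, W x * W x' * P x x' ≤ ∑ x ∈ Ξ, W x * (T * S) := by
    refine Finset.sum_le_sum fun x hx => ?_
    have : ∑ x' ∈ Ξ, W x * W x' * P x x' = W x * ∑ x' ∈ Ξ, W x' * P x x' := by
      rw [Finset.mul_sum]
      exact Finset.sum_congr rfl fun _ _ => by ring
    rw [this]
    exact mul_le_mul_of_nonneg_left (hrow x hx) (hW x)
  rw [← Finset.sum_mul] at h1
  have h2 : ∑ x ∈ Ξ, W x ≤ S := by
    rw [← hS]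
    exact Finset.sum_le_sum_of_subset_of_nonneg hΞ fun i _ _ => hW i
  have h3 : (∑ x ∈ Ξ, W x) * (T * S) ≤ S * (T * S) :=
    mul_le_mul_of_nonneg_right h2 (by positivity)
  have h4 : ((1 - ε3) * S) ^ 2 ≤ (∑ x ∈ Ξ, W x) ^ 2 := by
    refine pow_le_pow_left₀ (mul_nonneg (by linarith) hS0.le) hmass 2
  have h5 := mul_le_mul_of_nonneg_left h4 hc
  have h6 : c00 * (1 - ε3) ^ 2 * S ^ 2 ≤ T * S ^ 2 := by
    calc c00 * (1 - ε3) ^ 2 * S ^ 2 = c00 * ((1 - ε3) * S) ^ 2 := by ring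
      _ ≤ S * (T * S) := by linarith
      _ = T * S ^ 2 := by ring
  exact le_of_mul_le_mul_right h6 (by positivity)

/-- ratio of the exact and of the constant normalisation -/
theorem ratio_near {q em δ e e' : ℝ} (hq : 0 < q) (hem : 0 < em) (hδ : 0 < δ) (hδ8 : δ ≤ 1 / 8)
    (h1 : |e / em - 1| ≤ δ) (h2 : |e' / em - 1| ≤ δ) :
    |(q + em) * em / ((q + e) * e') - 1| ≤ 4 * δ := by
  have a1 := abs_le.1 h1
  have a2 := abs_le.1 h2
  have b1 : (1 - δ) * em ≤ e := by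
    have := (le_div_iff₀ hem).1 (by linarith [a1.1] : 1 - δ ≤ e / em); linarith
  have b2 : e ≤ (1 + δ) * em := by
    have := (div_le_iff₀ hem).1 (by linarith [a1.2] : e / em ≤ 1 + δ); linarith
  have b3 : (1 - δ) * em ≤ e' := by
    have := (le_div_iff₀ hem).1 (by linarith [a2.1] : 1 - δ ≤ e' / em); linarith
  have b4 : e' ≤ (1 + δ) * em := by
    have := (div_le_iff₀ hem).1 (by linarith [a2.2] : e' / em ≤ 1 + δ); linarith
  have hd : 0 < 1 - δ := by linarith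
  have he : 0 < e := lt_of_lt_of_le (mul_pos hd hem) b1
  have he' : 0 < e' := lt_of_lt_of_le (mul_pos hd hem) b3
  have hD : 0 < (q + e) * e' := by positivity
  have c1 : (1 - δ) * (q + em) ≤ q + e := by nlinarith
  have c2 : q + e ≤ (1 + δ) * (q + em) := by nlinarith
  have hqe : 0 < q + em := by linarith
  have d1 : ((1 - δ) * (q + em)) * ((1 - δ) * em) ≤ (q + e) * e' :=
    mul_le_mul c1 b3 (by positivity) (by linarith)
  have d2 : (q + e) * e' ≤ ((1 + δ) * (q + em)) * ((1 + δ) * em) :=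
    mul_le_mul c2 b4 he'.le (by positivity)
  have hM : 0 < (q + em) * em := by positivity
  rw [abs_le]
  constructor
  · have : (1 - 4 * δ) ≤ (q + em) * em / ((q + e) * e') := by
      rw [le_div_iff₀ hD]
      have e1 : (1 - 4 * δ) * ((1 + δ) * (1 + δ)) ≤ 1 := by nlinarith [mul_pos hδ hδ, mul_pos (mul_pos hδ hδ) hδ]
      calc (1 - 4 * δ) * ((q + e) * e')
          ≤ (1 - 4 * δ) * (((1 + δ) * (q + em)) * ((1 + δ) * em)) :=
            mul_le_mul_of_nonneg_left d2 (by linarith)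
        _ = (1 - 4 * δ) * ((1 + δ) * (1 + δ)) * ((q + em) * em) := by ring
        _ ≤ 1 * ((q + em) * em) := mul_le_mul_of_nonneg_right e1 hM.le
        _ = (q + em) * em := one_mul _
    linarith
  · have : (q + em) * em / ((q + e) * e') ≤ 1 + 4 * δ := by
      rw [div_le_iff₀ hD]
      have e1 : 1 ≤ (1 + 4 * δ) * ((1 - δ) * (1 - δ)) := by
        have : (1 + 4 * δ) * ((1 - δ) * (1 - δ)) - 1 = δ * (2 - 7 * δ + 4 * δ ^ 2) := by ring
        have h7 : 0 ≤ 2 - 7 * δ + 4 * δ ^ 2 := by nlinarith [sq_nonneg δ]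
        have := mul_nonneg hδ.le h7
        linarith
      calc (q + em) * em = 1 * ((q + em) * em) := (one_mul _).symm
        _ ≤ (1 + 4 * δ) * ((1 - δ) * (1 - δ)) * ((q + em) * em) :=
            mul_le_mul_of_nonneg_right e1 hM.le
        _ = (1 + 4 * δ) * (((1 - δ) * (q + em)) * ((1 - δ) * em)) := by ring
        _ ≤ (1 + 4 * δ) * ((q + e) * e') :=
            mul_le_mul_of_nonneg_left d1 (by linarith)
    linarith

/-- closeness of the two normalised kernels -/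
theorem ker_near {q em δ e1 e e' K w : ℝ} (hq : 0 < q) (hem : 0 < em) (hδ : 0 < δ)
    (hδ8 : δ ≤ 1 / 8) (hδe : 4 * δ ≤ e1) (h1 : |e / em - 1| ≤ δ) (h2 : |e' / em - 1| ≤ δ) :
    |w * (K / ((q + e) * e')) - w / ((q + em) * em) * K| ≤ e1 * |w / ((q + em) * em) * K| := by
  have hr := ratio_near hq hem hδ hδ8 h1 h2
  have hM : (q + em) * em ≠ 0 := by positivity
  have a1 := abs_le.1 h1
  have a2 := abs_le.1 h2
  have b1 : 0 < e := by
    have h := (le_div_iff₀ hem).1 (by linarith [a1.1] : 1 - δ ≤ e / em)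
    have : 0 < (1 - δ) * em := mul_pos (by linarith) hem
    linarith
  have b3 : 0 < e' := by
    have h := (le_div_iff₀ hem).1 (by linarith [a2.1] : 1 - δ ≤ e' / em)
    have : 0 < (1 - δ) * em := mul_pos (by linarith) hem
    linarith
  have hN : (q + e) * e' ≠ 0 := by positivity
  have hid : w * (K / ((q + e) * e')) - w / ((q + em) * em) * K
      = ((q + em) * em / ((q + e) * e') - 1) * (w / ((q + em) * em) * K) := by
    field_simp
  rw [hid, abs_mul]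
  exact mul_le_mul_of_nonneg_right (le_trans hr hδe) (abs_nonneg _)

end Pool.Agent.H34.RM
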