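import Pool.Agent.H34.RM.FB
import Pool.Agent.H33.RM.RowF5

/-!
Row F: the local theorem.
-/

open Finset

namespace Pool.Agent.H34.RM

open Pool.Agent.H92

theorem phi_nonneg {d t p : ℝ} (ht : 0 ≤ t) (ht1 : t ≤ 1) (hp : 0 < p) (hp1 : p < 1) :
    0 ≤ phi d t p := by
  unfold phi
  have h1 : 0 ≤ (1 - t) ^ (1 + d) := Real.rpow_nonneg (by linarith) _
  have h2 : 0 ≤ (1 - t + t / p) ^ (1 + d) :=
    Real.rpow_nonneg (by have := div_nonneg ht hp.le; linarith) _
  have h3 : 0 ≤ 1 - p := by linarith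
  positivity

theorem kap_zero {a b c d q p L t : ℝ} (ha : 0 < a) (hd : 0 < d) (hq : 0 < q) :
    kap a b c d q p L t 0
      = Real.exp (-L / a) * q ^ (-b / a) * phi d t p ^ (c / (a * d)) := by
  unfold kap
  have h1 : (q ^ (-d) * (1 + 0 / q)) ^ (b / (a * d)) = q ^ (-b / a) := by
    rw [zero_div, add_zero, mul_one, ← Real.rpow_mul hq.le]
    congr 1
    field_simp
  rw [h1, zero_mul, add_zero]
  ring

theorem kap_cont {a b c d q p L t : ℝ} (ha : 0 < a) (hb : 0 < b) (hc : 0 < c) (hd : 0 < d) :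
    ContinuousAt (fun δ => kap a b c d q p L t δ) 0 := by
  unfold kap
  have e1 : 0 ≤ b / (a * d) := by positivity
  have e2 : 0 ≤ c / (a * d) := by positivity
  refine ContinuousAt.mul continuousAt_const (ContinuousAt.mul ?_ ?_)
  · refine ContinuousAt.rpow_const ?_ (Or.inr e1)
    fun_prop
  · refine ContinuousAt.rpow_const ?_ (Or.inr e2)
    fun_prop

theorem pol_swap (n : ℕ) (cf : ℕ → ℕ → ℝ) (y z : ℝ) :
    pol n (fun i j => cf j i) z y = pol n cf y z := by
  unfold pol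
  rw [Finset.sum_comm]
  refine Finset.sum_congr rfl fun i _ => Finset.sum_congr rfl fun j _ => ?_
  ring

theorem rowF (hAP : RowAP) (hD : RowD) (hE : RowE) (hF1 : RowF1) (hF2 : RowF2)
    (hF3 : RowF3) (hF5 : Pool.Agent.H33.RM.RowF5) (hgm : GoodMass) (hgp : GramPol) (hdp : DiagPol) : RowF := by
  classical
  intro a b c d q p L M ha hb hc hd hd1 hq hq1 hp hp1 hC
  obtain ⟨n, cf, s, t, la, la', l1, C, m, hn, hcf, hs, hs1, ht, ht1, hla, hla', hl1, hC0, hR, hBl,
    hgrow, hcost⟩ := hC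
  set K0 := q ^ (-b / a) with hK0d
  set K0' := p ^ (-c / a) with hK0d'
  have hK0 : 0 ≤ K0 := Real.rpow_nonneg hq.le _
  have hK0' : 0 ≤ K0' := Real.rpow_nonneg hp.le _
  set cR := Real.exp (-L / a) * q ^ (-b / a) * phi d t p ^ (c / (a * d)) with hcR
  set cB := Real.exp (-M / a) * p ^ (-c / a) * phi d s q ^ (b / (a * d)) with hcB
  have hcR0 : 0 ≤ cR := by
    have := Real.rpow_nonneg (phi_nonneg (d := d) ht ht1 hp hp1) (c / (a * d))
    have := Real.rpow_nonneg hq.le (-b / a)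
    positivity
  have hcB0 : 0 ≤ cB := by
    have := Real.rpow_nonneg (phi_nonneg (d := d) hs hs1 hq hq1) (b / (a * d))
    have := Real.rpow_nonneg hp.le (-c / a)
    positivity
  set cost := la * cR + la' * cB + l1 * (K0 + K0') with hcostd
  have hcost0 : 0 ≤ cost := by positivity
  set c00 := cf 0 0 with hc00
  set μ := (c00 - cost) / 8 with hμd
  have hμ : 0 < μ := by rw [hμd]; linarith
  have hμc : cost + 8 * μ = c00 := by rw [hμd]; ring
  have hc00p : 0 < c00 := by linarith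
  set θ := min 1 (μ / (1 + l1 * (K0 + K0'))) with hθd
  have hθ : 0 < θ := by
    rw [hθd]
    exact lt_min one_pos (by positivity)
  have hθ1 : θ ≤ 1 := min_le_left _ _
  have hθ2 : l1 * (K0 + K0') * θ ≤ μ := by
    have h1 : θ ≤ μ / (1 + l1 * (K0 + K0')) := min_le_right _ _
    have h0 : 0 ≤ l1 * (K0 + K0') := by positivity
    rw [le_div_iff₀ (by linarith)] at h1
    linarith
  obtain ⟨δ3, hδ3, hF5'⟩ := hF5 a b c d q p ha hb hc hd hd1 hq hq1 hp hp1 θ hθ
  -- choice of δ2
  obtain ⟨δ2, hδ2, hδ23, hk⟩ : ∃ δ2 : ℝ, 0 < δ2 ∧ δ2 ≤ δ3 ∧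
      la * kap a b c d q p L t δ2 + la' * kap a c b d p q M s δ2 ≤ la * cR + la' * cB + μ := by
    have h1 : ContinuousAt (fun δ => la * kap a b c d q p L t δ + la' * kap a c b d p q M s δ) 0 :=
      (continuousAt_const.mul (kap_cont ha hb hc hd)).add
        (continuousAt_const.mul (kap_cont ha hc hb hd))
    have h2 := h1.tendsto
    have hz : la * kap a b c d q p L t 0 + la' * kap a c b d p q M s 0 = la * cR + la' * cB := by
      rw [kap_zero ha hd hq, kap_zero ha hd hp]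
    rw [hz] at h2
    have h3 := h2.eventually (eventually_lt_nhds (by linarith :
      la * cR + la' * cB < la * cR + la' * cB + μ))
    obtain ⟨r, hr, h4⟩ := Metric.eventually_nhds_iff.1 h3
    have hmin : 0 < min (r / 2) δ3 := lt_min (by linarith) hδ3
    refine ⟨min (r / 2) δ3, hmin, min_le_right _ _, (h4 ?_).le⟩
    rw [Real.dist_eq, sub_zero, abs_of_pos hmin]
    exact lt_of_le_of_lt (min_le_left _ _) (by linarith)
  set ε := μ / (1 + 2 * (K0 + K0')) with hεd
  have hKK : 0 < 1 + 2 * (K0 + K0') := by linarith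
  have hε : 0 < ε := div_pos hμ hKK
  have hεK : ε * (2 * (K0 + K0')) + ε = μ := by
    rw [hεd]
    field_simp
    ring
  set ε3 := μ / c00 with hε3d
  have hε3 : 0 < ε3 := div_pos hμ hc00p
  have hε3c : c00 * ε3 = μ := by rw [hε3d]; field_simp
  have hε31 : ε3 ≤ 1 := by
    rw [hε3d, div_le_one hc00p]
    linarith
  obtain ⟨e1, W1, he1, he12, hW1, hRR⟩ := hAP n cf la l1 t C m hla hl1 ht ht1 hC0 hR hgrow ε hε
  obtain ⟨e1', W2, he1', he12', hW2, hBB⟩ := hAP n (fun i j => cf j i) la' l1 s C m hla' hl1 hs hs1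
    hC0 (fun y z => by
      rw [pol_swap n cf z y]
      have := hBl z y
      rw [add_comm (Real.exp y) (Real.exp z)]
      exact this) (fun y z => by
      rw [pol_swap n cf z y]
      have := hgrow z y
      linarith) ε hε
  set δ1 := min (1 / 8) (min e1 e1' / 4) with hδ1d
  have hδ1 : 0 < δ1 := by
    rw [hδ1d]
    have := lt_min he1 he1'
    exact lt_min (by norm_num) (by linarith)
  have hδ18 : δ1 ≤ 1 / 8 := min_le_left _ _
  have hδe : 4 * δ1 ≤ e1 := by
    have h1 : δ1 ≤ min e1 e1' / 4 := min_le_right _ _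
    have h2 : min e1 e1' ≤ e1 := min_le_left _ _
    linarith
  have hδe' : 4 * δ1 ≤ e1' := by
    have h1 : δ1 ≤ min e1 e1' / 4 := min_le_right _ _
    have h2 : min e1 e1' ≤ e1' := min_le_right _ _
    linarith
  set εF := δ2 * ε3 / 4 with hεFd
  have hεF : 0 < εF := by positivity
  obtain ⟨W3, hF3'⟩ := hF3 a b c d q p ha hb hc hd hd1 hq hq1 hp hp1 εF hεF
  obtain ⟨C5, hC5, hdiag⟩ := hdp q p n cf hq hp hcf
  set e0 := min (δ1 ^ 2 * ε3 / 12) (μ / (C5 + 1)) with he0d
  have he0 : 0 < e0 := by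
    rw [he0d]
    exact lt_min (by positivity) (by positivity)
  have he0a : e0 ≤ δ1 ^ 2 * ε3 / 12 := min_le_left _ _
  have he0b : e0 ≤ μ / (C5 + 1) := min_le_right _ _
  refine ⟨e0, 2 * n, max (max W1 W2) (max W3 1), he0,
    le_trans (le_max_right _ _) (le_max_right _ _), ?_⟩
  intro V _ G _ X Y Z nu ze w w' em em' hw hw' hnu hze hem hem1 hem' hem1' _ _ hSpos hmax h2 hinv
    h2' hinv' hat hchR hchB
  have hwW1 : W1 ≤ w := le_trans (le_trans (le_max_left _ _) (le_max_left _ _)) hw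
  have hwW2 : W2 ≤ w := le_trans (le_trans (le_max_right _ _) (le_max_left _ _)) hw
  have hwW3 : W3 ≤ w := le_trans (le_trans (le_max_left _ _) (le_max_right _ _)) hw
  have hw1 : 1 ≤ w := le_trans (le_trans (le_max_right _ _) (le_max_right _ _)) hw
  have hwW1' : W1 ≤ w' := le_trans (le_trans (le_max_left _ _) (le_max_left _ _)) hw'
  have hwW2' : W2 ≤ w' := le_trans (le_trans (le_max_right _ _) (le_max_left _ _)) hw'
  have hwW3' : W3 ≤ w' := le_trans (le_trans (le_max_left _ _) (le_max_right _ _)) hw'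
  have hw1' : 1 ≤ w' := le_trans (le_trans (le_max_right _ _) (le_max_right _ _)) hw'
  have hw0 : (0 : ℝ) < w := by exact_mod_cast hw1
  have hw0' : (0 : ℝ) < w' := by exact_mod_cast hw1'
  set S := SS G q p w w' X Y Z nu ze with hSd
  set W : V → ℝ := fun x => wt G q p w w' Y Z nu ze x with hWd
  have hW0 : ∀ x, 0 ≤ W x := fun x => wt_nonneg G q p w w' Y Z nu ze x
  have hSW : ∑ x ∈ X, W x = S := rfl
  obtain ⟨hCRm, hCBm⟩ := hF3' V G X Y Z nu ze w w' hwW3 hwW3' hnu hze hSpos hmax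
  obtain ⟨hMR, hMB⟩ := hF5' V G X Y Z nu ze w w' hw1 hw1' hnu hze hmax
  set Ξ := X.filter (fun x => 0 < W x ∧ |(dR G Y nu x - q) / em - 1| ≤ δ1 ∧
    |(dB G Z ze x - p) / em' - 1| ≤ δ1 ∧ |CR G d Y nu x| ≤ δ2 ∧ |CB G d Z ze x| ≤ δ2) with hΞd
  have hΞX : Ξ ⊆ X := Finset.filter_subset _ _
  have hΞm : ∀ x ∈ Ξ, x ∈ X ∧ 0 < W x ∧ |(dR G Y nu x - q) / em - 1| ≤ δ1 ∧
      |(dB G Z ze x - p) / em' - 1| ≤ δ1 ∧ |CR G d Y nu x| ≤ δ2 ∧ |CB G d Z ze x| ≤ δ2 := by
    intro x hx
    exact Finset.mem_filter.1 hx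
  -- mass of the good set
  have hmass : (1 - ε3) * S ≤ ∑ x ∈ Ξ, W x := by
    have h := hgm V X W (fun x => (dR G Y nu x - q) / em) (fun x => (dB G Z ze x - p) / em')
      (CR G d Y nu) (CB G d Z ze) δ1 δ2 e0 εF (fun x _ => hW0 x)
      (fun x _ hx => ⟨div_pos (by have := wt_pos_left G hw1 hx; linarith) hem,
        div_pos (by have := wt_pos_right G hw1' hx; linarith) hem'⟩) hδ1 hδ2
      h2 (by
        have : ∀ x, 1 / ((dR G Y nu x - q) / em) = em / (dR G Y nu x - q) :=
          fun x => one_div_div _ _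
        simp only [this]
        exact hinv) h2' (by
        have : ∀ x, 1 / ((dB G Z ze x - p) / em') = em' / (dB G Z ze x - p) :=
          fun x => one_div_div _ _
        simp only [this]
        exact hinv') hCRm hCBm Ξ hΞX (fun x hx h1 h2 h3 h4 h5 => by
        rw [hΞd]
        exact Finset.mem_filter.2 ⟨hx, h1, h2, h3, h4, h5⟩)
    refine le_trans (mul_le_mul_of_nonneg_right ?_ hSpos.le) h
    have g1 : 6 * e0 / δ1 ^ 2 ≤ ε3 / 2 := by
      rw [div_le_iff₀ (by positivity)]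
      linarith
    have g2 : 2 * εF / δ2 = ε3 / 2 := by
      rw [hεFd]
      field_simp
      ring
    linarith
  -- the kernels
  set P : V → V → ℝ := fun x x' => pol n cf (w / ((q + em) * em) * KR G Y nu x x')
    (w' / ((p + em') * em') * KB G Z ze x x') with hPd
  have hgram := hgp V G Ξ Y Z nu ze W hnu hze (w / ((q + em) * em)) (w' / ((p + em') * em')) n cf
    (by positivity) (by positivity) hn hcf
  set kR := kap a b c d q p L t δ2 with hkR
  set kB := kap a c b d p q M s δ2 with hkB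
  set T := la * kR + la' * kB + (l1 + ε) * ((1 + θ) * K0 + (1 + θ) * K0') + ε + μ with hT
  have hkR0 : 0 ≤ kR := by
    rw [hkR]
    unfold kap
    have h1 := phi_nonneg (d := d) ht ht1 hp hp1
    have h3 : 0 ≤ (1 - t + t / p) ^ (1 + d) :=
      Real.rpow_nonneg (by have := div_nonneg ht hp.le; linarith) _
    have h4 : 0 ≤ q ^ (-d) := Real.rpow_nonneg hq.le _
    positivity
  have hkB0 : 0 ≤ kB := by
    rw [hkB]
    unfold kap
    have h1 := phi_nonneg (d := d) hs hs1 hq hq1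
    have h3 : 0 ≤ (1 - s + s / q) ^ (1 + d) :=
      Real.rpow_nonneg (by have := div_nonneg hs hq.le; linarith) _
    have h4 : 0 ≤ p ^ (-d) := Real.rpow_nonneg hp.le _
    positivity
  have hT0 : 0 ≤ T := by positivity
  have hrow : ∀ x ∈ Ξ, ∑ x' ∈ Ξ, W x' * P x x' ≤ T * S := by
    intro x hx
    obtain ⟨hxX, hxW, hxe, hxe', hxC, hxC'⟩ := hΞm x hx
    have hqx : q ≤ dR G Y nu x := (wt_pos_left G hw1 hxW).le
    have hpx : p ≤ dB G Z ze x := (wt_pos_right G hw1' hxW).le
    have hRc := red_child G hD hE hF1 hF2 ha hb hc hd hd1 hq hp ht ht1 hw1 hw1' hnu hze x hqx hpx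
      hxC hxC' (fun nu' ze' h1 h2 => hchR x hxX nu' ze' h1 h2)
    have hBc := blue_child G hD hE hF1 hF2 ha hb hc hd hd1 hq hp hs hs1 hw1 hw1' hnu hze x hqx hpx
      hxC hxC' (fun nu' ze' h1 h2 => hchB x hxX nu' ze' h1 h2)
    have hdg : W x * P x x ≤ μ * S := by
      have h1 := hdiag w w' em em' (KR G Y nu x x) (KB G Z ze x x) hw1 hw1' hem hem1 hem' hem1'
        (abs_KR_le G hnu x x) (abs_KB_le G hze x x)
      calc W x * P x x ≤ W x * (C5 * (((w : ℝ) + w') / (em * em')) ^ (2 * n)) :=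
            mul_le_mul_of_nonneg_left h1 (hW0 x)
        _ = C5 * (W x * (((w : ℝ) + w') / (em * em')) ^ (2 * n)) := by ring
        _ ≤ C5 * (e0 * S) := mul_le_mul_of_nonneg_left (hat x hxX) hC5
        _ = (C5 * e0) * S := by ring
        _ ≤ μ * S := by
          refine mul_le_mul_of_nonneg_right ?_ hSpos.le
          calc C5 * e0 ≤ (C5 + 1) * e0 := mul_le_mul_of_nonneg_right (le_add_of_nonneg_right zero_le_one) he0.le
            _ ≤ (C5 + 1) * (μ / (C5 + 1)) := mul_le_mul_of_nonneg_left he0b (by linarith)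
            _ = μ := by field_simp
    have key : ∀ x' ∈ Ξ,
        |w * (KR G Y nu x x' / (dR G Y nu x * (dR G Y nu x' - q)))
            - w / ((q + em) * em) * KR G Y nu x x'|
          ≤ min e1 e1' * |w / ((q + em) * em) * KR G Y nu x x'| ∧
        |w' * (KB G Z ze x x' / (dB G Z ze x * (dB G Z ze x' - p)))
            - w' / ((p + em') * em') * KB G Z ze x x'|
          ≤ min e1 e1' * |w' / ((p + em') * em') * KB G Z ze x x'| := by
      intro x' hx'
      obtain ⟨_, _, hxe2, hxe2', _, _⟩ := hΞm x' hx'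
      have r1 := ker_near (K := KR G Y nu x x') (w := (w : ℝ)) hq hem hδ1 hδ18
        (le_min hδe hδe') hxe hxe2
      have r2 := ker_near (K := KB G Z ze x x') (w := (w' : ℝ)) hp hem' hδ1 hδ18
        (le_min hδe hδe') hxe' hxe2'
      rw [add_sub_cancel] at r1 r2
      exact ⟨r1, r2⟩
    have hdiv : ∀ u : ℝ, (w : ℝ) * u / w = u := fun u => by field_simp
    have hdiv' : ∀ u : ℝ, (w' : ℝ) * u / w' = u := fun u => by field_simp
    have hdivt : ∀ r u : ℝ, r * ((w : ℝ) * u) / w = r * u := fun r u => by field_simp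
    have hdivt' : ∀ r u : ℝ, r * ((w' : ℝ) * u) / w' = r * u := fun r u => by field_simp
    refine row_abs G X Ξ hΞX W hW0 (P x)
      (fun x' => (max (1 + KR G Y nu x x' / (dR G Y nu x * (dR G Y nu x' - q))) 0) ^ w *
          (max (1 + t * (KB G Z ze x x' / (dB G Z ze x * (dB G Z ze x' - p)))) 0) ^ w')
      (fun x' => (max (1 + KB G Z ze x x' / (dB G Z ze x * (dB G Z ze x' - p))) 0) ^ w' *
          (max (1 + s * (KR G Y nu x x' / (dR G Y nu x * (dR G Y nu x' - q)))) 0) ^ w)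
      (fun x' => (max (1 + KR G Y nu x x' / (dR G Y nu x * (dR G Y nu x' - q))) 0) ^ w)
      (fun x' => (max (1 + KB G Z ze x x' / (dB G Z ze x * (dB G Z ze x' - p))) 0) ^ w')
      la la' l1 ε μ kR kB ((1 + θ) * K0) ((1 + θ) * K0') S hla hla' hl1 hε.le
      (fun x' => by positivity) (fun x' => by positivity) (fun x' => by positivity)
      (fun x' => by positivity) x hx ?_ ?_ hRc hBc
      (hMR x hqx (le_trans (le_trans (le_abs_self _) hxC) hδ23))
      (hMB x hpx (le_trans (le_trans (le_abs_self _) hxC') hδ23)) hdg hSW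
    · intro x' hx'
      obtain ⟨k1, k2⟩ := key x' hx'
      have h := hRR w w' hwW1 hwW1' _ _ _ _
        (le_trans k1 (mul_le_mul_of_nonneg_right (min_le_left _ _) (abs_nonneg _)))
        (le_trans k2 (mul_le_mul_of_nonneg_right (min_le_left _ _) (abs_nonneg _)))
      rw [hdiv, hdiv', hdivt'] at h
      refine le_trans h (le_of_eq ?_)
      ring
    · intro x' hx'
      obtain ⟨k1, k2⟩ := key x' hx'
      have h := hBB w' w hwW2' hwW2 _ _ _ _
        (le_trans k2 (mul_le_mul_of_nonneg_right (min_le_right _ _) (abs_nonneg _)))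
        (le_trans k1 (mul_le_mul_of_nonneg_right (min_le_right _ _) (abs_nonneg _)))
      rw [hdiv, hdiv', hdivt, pol_swap] at h
      refine le_trans h (le_of_eq ?_)
      ring
  have hfin := fin_abs X Ξ W hW0 P T S ε3 c00 hSpos hT0 hc00p.le hΞX hSW hε31 hrow hmass hgram
  have hexp : c00 * (1 - ε3) ^ 2 = c00 - 2 * (c00 * ε3) + (c00 * ε3) * ε3 := by ring
  rw [hexp, hε3c] at hfin
  have h9 : 0 < μ * ε3 := mul_pos hμ hε3
  have hεθ : ε * (K0 + K0') * θ ≤ ε * (K0 + K0') := by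
    have h0 : 0 ≤ ε * (K0 + K0') := by positivity
    have := mul_le_mul_of_nonneg_left hθ1 h0
    linarith
  have hTe : T = la * kR + la' * kB + (l1 * (K0 + K0') + l1 * (K0 + K0') * θ
      + (ε * (K0 + K0') + ε * (K0 + K0') * θ)) + ε + μ := by
    rw [hT]
    ring
  have hTT : T ≤ cost + 4 * μ := by
    rw [hTe, hcostd]
    linarith
  linarith

end Pool.Agent.H34.RM
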