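import Pool.Agent.H34.RM.Defs

/-!
Rows of the project (statements as Props, to be proved in separate files).
-/

open Finset

namespace Pool.Agent.H34.RM

open Pool.Agent.H92

/-- ROW A. The finite `w` form of a certificate inequality. -/
def RowA : Prop :=
  ∀ (w0 w1 w2 om mu mu' la t s0 s1 : ℝ), 0 ≤ w0 → 0 ≤ w1 → 0 ≤ w2 → 0 ≤ om → 0 ≤ mu → 0 ≤ mu' →
    0 ≤ la → 0 ≤ t → t < 1 → mu < s0 → mu' < s1 → s0 ≤ 1 → s1 ≤ 1 →
    (∀ y z : ℝ, tst w0 w1 w2 om mu mu' y z ≤ la * Real.exp (y + t * z)) →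
    ∀ ε : ℝ, 0 < ε → ∃ n0 : ℕ, ∀ n : ℕ, n0 ≤ n → Even n →
      ∃ (e1 : ℝ) (W : ℕ), 0 < e1 ∧ ∀ w w' : ℕ, W ≤ w → W ≤ w' →
        ∀ y z y' z' : ℝ, |y - y'| ≤ e1 * |y'| → |z - z'| ≤ e1 * |z'| →
          w0 + w1 * y' + w2 * z' + om * (y' * z' * ((1 + mu * y' / n) ^ n * (1 + mu' * z' / n) ^ n))
            ≤ la * ((max (1 + y / w) 0) ^ w * (max (1 + t * z / w') 0) ^ w')
              + ε * ((1 + s0 * |y'| / w) ^ w * (1 + s1 * |z'| / w') ^ w')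

section kernels
variable {V : Type} [DecidableEq V] (G : SimpleGraph V) [DecidableRel G.Adj]

/-- covariance kernel of the red indicators -/
noncomputable def KR (Y : Finset V) (nu : V → ℝ) (x x' : V) : ℝ :=
  ∑ y ∈ Y, nu y * (rI G x y * rI G x' y) - dR G Y nu x * dR G Y nu x'

/-- covariance kernel of the blue indicators -/
noncomputable def KB (Z : Finset V) (ze : V → ℝ) (x x' : V) : ℝ :=
  ∑ z ∈ Z, ze z * (bI G x z * bI G x' z) - dB G Z ze x * dB G Z ze x'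

/-- tilt by the red neighbourhood of `x` -/
noncomputable def tiltR (Y : Finset V) (nu : V → ℝ) (s : ℝ) (x y : V) : ℝ :=
  nu y * (1 - s + s * rI G x y / dR G Y nu x)

/-- tilt by the blue neighbourhood of `x` -/
noncomputable def tiltB (Z : Finset V) (ze : V → ℝ) (s : ℝ) (x y : V) : ℝ :=
  ze y * (1 - s + s * bI G x y / dB G Z ze x)

end kernels

/-- ROW B. Positivity of all products of the covariance kernels (Schur). -/
def RowB : Prop :=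
  ∀ (V : Type) [DecidableEq V] (G : SimpleGraph V) [DecidableRel G.Adj]
    (X Y Z : Finset V) (nu ze : V → ℝ), IsProb Y nu → IsProb Z ze →
    ∀ (φ : V → ℝ) (i j : ℕ),
      0 ≤ ∑ x ∈ X, ∑ x' ∈ X, φ x * φ x' * (KR G Y nu x x' ^ i * KB G Z ze x x' ^ j)

/-- ROW B2. Cauchy-Schwarz: covariance of the red indicators with a function `T`. The same with
`KB`, `bI` (prove a general lemma for an arbitrary 0-1 valued or real `A : V → V → ℝ`). -/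
def RowB2 : Prop :=
  ∀ (V : Type) [DecidableEq V] (A : V → V → ℝ) (X Y : Finset V) (nu T pi : V → ℝ),
    IsProb Y nu → (∀ x ∈ X, 0 ≤ pi x) →
      (∑ x ∈ X, pi x * |∑ y ∈ Y, nu y * (A x y * T y)
          - (∑ y ∈ Y, nu y * A x y) * ∑ y ∈ Y, nu y * T y|) ^ 2
        ≤ (∑ x ∈ X, ∑ x' ∈ X, pi x * pi x' * |∑ y ∈ Y, nu y * (A x y * A x' y)
            - (∑ y ∈ Y, nu y * A x y) * ∑ y ∈ Y, nu y * A x' y|)
          * (∑ y ∈ Y, nu y * (T y) ^ 2 - (∑ y ∈ Y, nu y * T y) ^ 2)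

/-- ROW C. Tail lemma: at a maximiser the Renyi density `T = nu^d / sum nu^(1+d)` has small
variance. `g` is the weighted degree of `y` into `X`, bounded by `Gm`. -/
def RowC : Prop :=
  ∀ (a b d : ℝ), 0 < a → 0 < b → 0 < d → d ≤ 1 → ∃ C0 : ℝ, 0 < C0 ∧
    ∀ (V : Type) [DecidableEq V] (Y : Finset V) (nu g : V → ℝ) (w : ℕ) (Gm : ℝ),
      IsProb Y nu → (∀ y ∈ Y, 0 ≤ g y) → (∀ y ∈ Y, g y ≤ Gm) → 1 ≤ Gm → 1 ≤ w →
      C0 * (1 + Real.log (w * Gm)) ≤ w →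
      (∀ f : V → ℝ, (∀ y ∈ Y, 0 ≤ f y) → ∑ y ∈ Y, nu y * f y = 1 →
        0 < 1 + ∑ y ∈ Y, nu y * ((f y - 1) * g y) →
        a * w * Real.log (1 + ∑ y ∈ Y, nu y * ((f y - 1) * g y))
          ≤ (b / d) * Real.log ((∑ y ∈ Y, (nu y * f y) ^ (1 + d)) / ∑ y ∈ Y, nu y ^ (1 + d))) →
      ∑ y ∈ Y, nu y * (nu y ^ d / (∑ y' ∈ Y, nu y' ^ (1 + d)) - 1) ^ 2
        ≤ C0 * (1 + Real.log (w * Gm)) ^ 2

/-- ROW D. `phi d t` is nonincreasing in the measure. -/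
def RowD : Prop :=
  ∀ (d t p p' : ℝ), 0 < d → d ≤ 1 → 0 ≤ t → t ≤ 1 → 0 < p → p ≤ p' → p' ≤ 1 →
    phi d t p' ≤ phi d t p

/-- ROW E. Lower bound for the sum of a child (or of a perturbed pair of weights). -/
def RowE : Prop :=
  ∀ (q p : ℝ) (w w' : ℕ) (V : Type) [DecidableEq V] (G : SimpleGraph V) [DecidableRel G.Adj]
    (X X' Y Z : Finset V) (nu ze nu' ze' : V → ℝ), 1 ≤ w → 1 ≤ w' → X' ⊆ X →
    ∑ x ∈ X', wt G q p w w' Y Z nu ze x *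
        ((max (1 + (dR G Y nu' x - dR G Y nu x) / (dR G Y nu x - q)) 0) ^ w *
          (max (1 + (dB G Z ze' x - dB G Z ze x) / (dB G Z ze x - p)) 0) ^ w')
      ≤ SS G q p w w' X' Y Z nu' ze'

end Pool.Agent.H34.RM
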